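import Pool.Agent.H31.Theta

set_option autoImplicit false
open SimpleGraph Pool.Agent.H31.SatDefs Pool.Agent.H31.Theta

namespace Pool.Agent.Results.MP_df7c80_co.Counter

def E : List (Fin 15 × Fin 15) := [(3, 14), (2, 5), (5, 10), (0, 6), (1, 14), (7, 13), (1, 11), (4, 9), (11, 14), (2, 9), (2, 12), (9, 11), (1, 8), (0, 7), (5, 7), (0, 11), (5, 14)]

def G : SimpleGraph (Fin 15) := fromRel fun x y => (x, y) ∈ E

instance : DecidableRel G.Adj := fun x y => decidable_of_iff _ (fromRel_adj _ x y).symm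

def P : ℕ → List (List (Fin 15))
  | 0 => (List.finRange 15).map fun v => [v]
  | k + 1 => (P k).flatMap fun p =>
      ((List.finRange 15).filter fun v => v ∉ p ∧ G.Adj (p.headD 0) v).map (· :: p)

theorem memP {k : ℕ} {g : ℕ → Fin 15} (h : PS G k g) (j : ℕ) (hj : j < k) :
    ((List.range (j + 1)).map g).reverse ∈ P j := by
  induction j with
  | zero => simp [P]
  | succ j ih =>
    rw [List.range_succ, List.map_append, List.reverse_append]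
    refine List.mem_flatMap.mpr ⟨_, ih (by omega), List.mem_map.mpr ⟨g (j + 1), ?_, rfl⟩⟩
    simp only [List.mem_filter, List.mem_finRange, true_and, decide_eq_true_eq, List.mem_reverse,
      List.mem_map, List.mem_range, not_exists, not_and]
    refine ⟨fun i hi => ?_, by simpa [List.range_succ] using h.2.2 j⟩
    have := h.2.1 i (j + 1 - i) (by omega) (by omega)
    rwa [show i + (j + 1 - i) = j + 1 by omega] at this

def L : List (List (Fin 15)) := [[0, 11, 14, 1],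
  [0, 11, 9, 2],
  [0, 11, 14, 3],
  [0, 11, 9, 4],
  [0, 11, 14, 5],
  [0, 11, 1, 8],
  [0, 11, 1, 14, 5, 2, 9],
  [0, 7, 5, 10],
  [0, 11, 1, 14, 5, 2, 12],
  [0, 11, 1, 14, 5, 7, 13],
  [0, 11, 1, 14],
  [1, 11, 9, 2],
  [1, 11, 14, 3],
  [1, 11, 9, 4],
  [1, 11, 14, 5],
  [1, 11, 0, 6],
  [1, 11, 0, 7],
  [1, 14, 11, 9],
  [1, 14, 5, 10],
  [1, 11, 0, 7, 5, 2, 12],
  [1, 11, 9, 2, 5, 7, 13],
  [2, 5, 14, 3],
  [2, 5, 14, 1, 11, 9, 4],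
  [2, 5, 14, 1, 11, 0, 6],
  [2, 9, 11, 1, 14, 5, 7],
  [2, 5, 7, 0, 11, 1, 8],
  [2, 9, 11, 0, 7, 5, 10],
  [2, 5, 14, 11],
  [2, 5, 7, 13],
  [2, 9, 11, 14],
  [3, 14, 1, 11, 0, 7, 5, 2, 9, 4],
  [3, 14, 1, 11, 0, 7, 5],
  [3, 14, 1, 11, 9, 2, 5, 7, 0, 6],
  [3, 14, 5, 7],
  [3, 14, 1, 8],
  [3, 14, 11, 9],
  [3, 14, 5, 10],
  [3, 14, 1, 11],
  [3, 14, 1, 11, 9, 2, 12],
  [3, 14, 1, 11, 0, 7, 13],
  [4, 9, 2, 5],
  [4, 9, 2, 5, 7, 0, 6],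
  [4, 9, 11, 1, 14, 5, 7],
  [4, 9, 2, 5, 14, 1, 8],
  [4, 9, 11, 0, 7, 5, 10],
  [4, 9, 2, 5, 14, 1, 11],
  [4, 9, 2, 12],
  [4, 9, 11, 14, 5, 7, 13],
  [4, 9, 11, 14],
  [5, 7, 0, 6],
  [5, 14, 1, 8],
  [5, 14, 11, 9],
  [5, 2, 9, 11],
  [5, 14, 1, 11, 9, 2, 12],
  [5, 2, 9, 11, 0, 7, 13],
  [6, 0, 11, 1, 14, 5, 7],
  [6, 0, 7, 5, 14, 1, 8],
  [6, 0, 11, 9],
  [6, 0, 11, 1, 14, 5, 10],
  [6, 0, 7, 5, 2, 9, 11],
  [6, 0, 11, 14, 5, 2, 12],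
  [6, 0, 7, 13],
  [6, 0, 11, 14],
  [7, 5, 2, 9, 11, 1, 8],
  [7, 0, 11, 9],
  [7, 0, 11, 1, 14, 5, 10],
  [7, 5, 14, 11],
  [7, 5, 2, 12],
  [7, 0, 11, 14],
  [8, 1, 11, 9],
  [8, 1, 11, 0, 7, 5, 10],
  [8, 1, 14, 11],
  [8, 1, 11, 14, 5, 2, 12],
  [8, 1, 11, 14, 5, 7, 13],
  [8, 1, 11, 14],
  [9, 2, 5, 10],
  [9, 11, 0, 7, 5, 2, 12],
  [9, 11, 1, 14, 5, 7, 13],
  [9, 2, 5, 14],
  [10, 5, 14, 11],
  [10, 5, 2, 12],
  [10, 5, 7, 13],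
  [10, 5, 2, 9, 11, 1, 14],
  [11, 9, 2, 12],
  [11, 0, 7, 13],
  [12, 2, 9, 11, 0, 7, 13],
  [12, 2, 5, 14],
  [13, 7, 5, 14]]

theorem satG : Saturated G {k | ∃ i, 1 ≤ i ∧ k = 3 * i + 1} := by
  constructor
  · rintro ⟨_, ⟨i, hi, rfl⟩, h⟩
    obtain ⟨g, h⟩ := ps_of (by omega) h
    have a : ∀ i ∈ [1, 2, 3], ∀ p ∈ P (3 * i), ¬G.Adj (p.headD 0) (p.getLastD 0) := by decide +kernel
    by_cases c : i ≤ 3
    · refine a i (by simp; omega) _ (memP h (3 * i) (by omega)) ?_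
      have := h.2.2 (3 * i)
      rw [← zero_add (3 * i + 1), h.1] at this
      convert this using 1
      · simp [List.range_succ]
      · simp [List.range_succ_eq_map]
    · have b : P 12 = [] := by decide +kernel
      have := memP h 12 (by omega)
      rw [b] at this; simp at this
  · have a : ∀ p ∈ L, (∃ i ∈ [1, 2, 3, 4], p.length = 3 * i + 1) ∧
        (∀ j < p.length, ∀ i < j, p.getD i 0 ≠ p.getD j 0) ∧
        ∀ i < p.length - 1, G.Adj (p.getD i 0) (p.getD (i + 1) 0) := by decide +kernel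
    have b : ∀ x y, x < y → ¬G.Adj x y → ∃ p ∈ L, p.getD 0 0 = x ∧ p.getD (p.length - 1) 0 = y := by
      decide +kernel
    intro x y ne h
    wlog l : x < y generalizing x y
    · rw [edge_comm]; exact this y x ne.symm (fun c => h c.symm) (lt_of_le_of_ne (not_lt.mp l) ne.symm)
    obtain ⟨p, hp, rfl, rfl⟩ := b x y l h
    obtain ⟨⟨i, hi, e⟩, a2, a3⟩ := a p hp
    have : 1 ≤ i := by simp at hi; omega
    exact ⟨p.length, ⟨i, this, e⟩, of_seq (by omega) (p.getD · 0) (fun i j ij h => a2 j h i ij)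
      (fun i h => Or.inl (a3 i (by omega))) (Or.inr ((edge_adj ..).mpr ⟨Or.inr ⟨rfl, rfl⟩, ne.symm⟩))⟩

theorem result : ¬ ∀ n : ℕ, 1 ≤ n →
    (sat n {k | ∃ i, 1 ≤ i ∧ k = 3 * i + 1} : ℤ) = ⌈(5 * n : ℚ) / 4 - 3 / 2⌉ := by
  intro h
  have a := h 15 (by omega)
  have b : sat 15 {k | ∃ i, 1 ≤ i ∧ k = 3 * i + 1} ≤ 17 := Nat.sInf_le ⟨G, satG, by
    rw [← coe_edgeFinset, Set.ncard_coe_finset]; decide +kernel⟩
  rw [show ⌈(5 * (15 : ℕ) : ℚ) / 4 - 3 / 2⌉ = 18 by norm_num [Int.ceil_eq_iff]] at a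
  omega

end Pool.Agent.Results.MP_df7c80_co.Counter
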